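import Pool.Agent.H743.JL.StmX
import Pool.Agent.H743.JL.ST

/-!
# JX (helper743), task ST2: average over the rank one changes, forms of two kinds (helper328)
-/

set_option autoImplicit false
set_option linter.all false

open scoped Classical

namespace Pool.Agent.H328.JX

open Finset Module
open Pool.Agent.H743.JL Pool.Agent.N916.MO
open Pool.Agent.H17.JL (step card_V dt_addr dt_subl fX fY fX_apply fY_apply)

section main_part

variable {E : Type} [AddCommGroup E] [Module (ZMod 2) E]

/-- the main part -/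
noncomputable def m2 (sp : Prop) (t r : ℕ) {R R' : Submodule (ZMod 2) E}
    (p : Module.Dual (ZMod 2) R × Module.Dual (ZMod 2) R') : ℝ :=
  if p.1 = 0 ∧ p.2 = 0 then (hk sp t r + hk sp t (r + 1)) / 2 else
    if p.1 = 0 ∨ p.2 = 0 ∨ (¬ sp ∧ ∀ (z : E) (h : z ∈ R) (h' : z ∈ R'), p.1 ⟨z, h⟩ = p.2 ⟨z, h'⟩)
    then hk sp t r else hk sp t (r - 1)

theorem hk_bd (h7 : S_HE) (sp : Prop) (t r : ℕ) : 0 ≤ hk sp t r ∧ hk sp t r ≤ 1 := by
  unfold hk
  split_ifs
  · exact h7.1 t r
  · exact ⟨hh_nonneg t r, hh_le1 t r⟩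

theorem m2_abs (h7 : S_HE) (sp : Prop) (t r : ℕ) {R R' : Submodule (ZMod 2) E}
    (p : Module.Dual (ZMod 2) R × Module.Dual (ZMod 2) R') : |m2 sp t r p| ≤ 1 := by
  have h := fun r => (hk_bd h7 sp t r).1
  have h' := fun r => (hk_bd h7 sp t r).2
  unfold m2
  rw [abs_le]
  split_ifs
  · constructor <;> linarith [h r, h (r + 1), h' r, h' (r + 1)]
  · constructor <;> linarith [h r, h' r]
  · constructor <;> linarith [h (r - 1), h' (r - 1)]

theorem m2_congr {sp sp' : Prop} (h : sp = sp') (t r : ℕ) {R R' : Submodule (ZMod 2) E}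
    (p : Module.Dual (ZMod 2) R × Module.Dual (ZMod 2) R') : m2 sp t r p = m2 sp' t r p := by
  subst h
  rfl

theorem card_dual2 {R : Type} [AddCommGroup R] [Module (ZMod 2) R] [Finite R]
    [Fintype (Module.Dual (ZMod 2) R)] (r : ℕ) (h : finrank (ZMod 2) R = r) :
    (Fintype.card (Module.Dual (ZMod 2) R) : ℝ) = 2 ^ r := by
  have h1 := Module.card_eq_pow_finrank (K := ZMod 2) (V := Module.Dual (ZMod 2) R)
  rw [Subspace.dual_finrank_eq, h, ZMod.card] at h1
  rw [h1]
  push_cast
  rfl

/-- the average, not split -/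
theorem avg0 (h4 : S_AV) [Finite E] {R R' : Submodule (ZMod 2) E} (hR : R = R')
    [i1 : Fintype (Module.Dual (ZMod 2) R)] [i2 : Fintype (Module.Dual (ZMod 2) R')] (r t : ℕ)
    (hr : finrank (ZMod 2) R = 2 * r) :
    ∑ p : Module.Dual (ZMod 2) R × Module.Dual (ZMod 2) R', m2 False t r p =
      16 ^ r * hk False (t + 1) r := by
  subst hR
  have hi : i1 = i2 := Subsingleton.elim _ _
  subst hi
  have h := h4 R r t hr
  rw [Fintype.sum_prod_type]
  have hk0 : ∀ t r, hk False t r = hh t r := fun t r => if_neg not_false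
  rw [hk0, ← h]
  refine sum_congr rfl fun f _ => sum_congr rfl fun g _ => ?_
  unfold m2
  rw [hk0, hk0, hk0]
  have e : (∀ (z : E) (h : z ∈ R) (h' : z ∈ R), f ⟨z, h⟩ = g ⟨z, h'⟩) ↔ f = g := by
    constructor
    · intro h
      exact LinearMap.ext fun z => h z.1 z.2 z.2
    · rintro rfl z h h'
      rfl
  simp only [not_false_eq_true, true_and, e]

/-- the average, split -/
theorem avg1 (h5 : S_A2) [Finite E] {R R' : Submodule (ZMod 2) E}
    [i1 : Fintype (Module.Dual (ZMod 2) R)] [i2 : Fintype (Module.Dual (ZMod 2) R')] (r t : ℕ)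
    (hr : finrank (ZMod 2) R = r) (hr' : finrank (ZMod 2) R' = r) :
    ∑ p : Module.Dual (ZMod 2) R × Module.Dual (ZMod 2) R', m2 True t r p =
      4 ^ r * hk True (t + 1) r := by
  have h := h5 R R' r t hr hr'
  rw [Fintype.sum_prod_type]
  have hk0 : ∀ t r, hk True t r = he t r := fun t r => if_pos trivial
  rw [hk0, ← h]
  refine sum_congr rfl fun f _ => sum_congr rfl fun g _ => ?_
  unfold m2
  rw [hk0, hk0, hk0]
  simp only [not_true_eq_false, false_and, or_false]

end main_part

section one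

variable {E0 : Type} [AddCommGroup E0] [Module (ZMod 2) E0] [Fintype E0] {I : Type}
  [Fintype I] [DecidableEq I] {B : EE E0 I →ₗ[ZMod 2] EE E0 I →ₗ[ZMod 2] ZMod 2}
  {AX AY : Submodule (ZMod 2) E0} {s : Sy I}

theorem KX_false : KX B s False AX = Rd B s := by
  unfold KX
  refine inf_eq_left.2 fun z _ h => h.elim

theorem KY_false : KY B s False AY = Rd B s := by
  unfold KY
  refine inf_eq_left.2 fun z _ h => h.elim

/-- the functionals on the radical are determined by the two parts -/
theorem vanish (h6 : S_SR) (halt : ∀ z, B z z = 0) (sp : Prop) (hspl : sp → Spl B AX AY)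
    (w : I → ZMod 2) :
    ((∀ z ∈ KX B s sp AX, dt w z.2.1 = 0) ↔ ∀ z ∈ Rd B s, dt w z.2.1 = 0) ∧
      ((∀ z ∈ KY B s sp AY, dt w z.2.2 = 0) ↔ ∀ z ∈ Rd B s, dt w z.2.2 = 0) := by
  have dt0 : dt w (0 : I → ZMod 2) = 0 := by
    unfold dt
    exact sum_eq_zero fun k _ => by rw [Pi.zero_apply, mul_zero]
  by_cases hsp : sp
  · have hT : sp = True := propext ⟨fun _ => trivial, fun _ => hsp⟩
    subst hT
    obtain ⟨h, -, -⟩ := h6 E0 I B AX AY s halt (hspl trivial)
    constructor
    · constructor
      · intro hx z hz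
        obtain ⟨x, hx', y, hy', rfl⟩ := h z hz
        have hy0 : y.2.1 = 0 := (hy'.2 trivial).2
        show dt w (x.2.1 + y.2.1) = 0
        rw [hy0, add_zero]
        exact hx x hx'
      · intro hx z hz
        exact hx z hz.1
    · constructor
      · intro hy z hz
        obtain ⟨x, hx', y, hy', rfl⟩ := h z hz
        have hx0 : x.2.2 = 0 := (hx'.2 trivial).2
        show dt w (x.2.2 + y.2.2) = 0
        rw [hx0, zero_add]
        exact hy y hy'
      · intro hy z hz
        exact hy z hz.1
  · have hF : sp = False := propext ⟨fun h => hsp h, fun h => h.elim⟩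
    subst hF
    rw [KX_false, KY_false]
    exact ⟨Iff.rfl, Iff.rfl⟩

end one

theorem t_ST2 (h1 : S_T1) (h2 : S_T22) (h3 : S_T32) (h4 : S_AV) (h5 : S_A2) (h6 : S_SR)
    (h7 : S_HE) : S_ST2 := by
  intro n E0 _ _ _ I _ _ B s sp AX AY t η halt hspl heven hJG hη hNW
  haveI : ∀ i, Finite (EE (E0 i) I) := fun i => inferInstance
  have hfinD : ∀ i (R : Submodule (ZMod 2) (EE (E0 i) I)), Finite (Module.Dual (ZMod 2) R) :=
    fun i R => Finite.of_injective (fun f : Module.Dual (ZMod 2) R =>
        (f : R → ZMod 2)) DFunLike.coe_injective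
  haveI : ∀ i, Fintype (Module.Dual (ZMod 2) (KX (B i) s (sp i) (AX i))) := fun i => by
    haveI := hfinD i (KX (B i) s (sp i) (AX i))
    exact Fintype.ofFinite _
  haveI : ∀ i, Fintype (Module.Dual (ZMod 2) (KY (B i) s (sp i) (AY i))) := fun i => by
    haveI := hfinD i (KY (B i) s (sp i) (AY i))
    exact Fintype.ofFinite _
  let P : Fin n → Type := fun i => Module.Dual (ZMod 2) (KX (B i) s (sp i) (AX i)) ×
    Module.Dual (ZMod 2) (KY (B i) s (sp i) (AY i))
  let Φ : (I → ZMod 2) → ∀ i, P i := fun v i =>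
    (fX (KX (B i) s (sp i) (AX i)) v, fY (KY (B i) s (sp i) (AY i)) v)
  have hΦ : ∀ v i, Φ v i = (fX (KX (B i) s (sp i) (AX i)) v, fY (KY (B i) s (sp i) (AY i)) v) :=
    fun v i => rfl
  have hfr : ∀ i, finrank (ZMod 2) (Rd (B i) s) = 2 * rr B s i := fun i => heven i
  have hvan := fun i w => vanish (s := s) h6 (halt i) (sp i) (hspl i) w
  -- the fibres are the cosets
  have hkk : ∀ a v, Φ v = Φ a ↔ v - a ∈ Vn B s univ := by
    intro a v
    constructor
    · intro h i _ z hz
      have e := congrFun h i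
      rw [hΦ, hΦ, Prod.mk.injEq] at e
      have e1 : ∀ z ∈ KX (B i) s (sp i) (AX i), dt (v - a) z.2.1 = 0 := by
        intro z hz
        have e1 := LinearMap.congr_fun e.1 ⟨z, hz⟩
        rw [fX_apply, fX_apply] at e1
        rw [dt_subl]
        exact sub_eq_zero.2 e1
      have e2 : ∀ z ∈ KY (B i) s (sp i) (AY i), dt (v - a) z.2.2 = 0 := by
        intro z hz
        have e2 := LinearMap.congr_fun e.2 ⟨z, hz⟩
        rw [fY_apply, fY_apply] at e2
        rw [dt_subl]
        exact sub_eq_zero.2 e2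
      exact ⟨(hvan i (v - a)).1.1 e1 z hz, (hvan i (v - a)).2.1 e2 z hz⟩
    · intro h
      funext i
      rw [hΦ, hΦ, Prod.mk.injEq]
      constructor
      · refine LinearMap.ext fun z => ?_
        have e := (h i (mem_univ i) z.1 z.2.1).1
        rw [dt_subl, sub_eq_zero] at e
        exact e
      · refine LinearMap.ext fun z => ?_
        have e := (h i (mem_univ i) z.1 z.2.1).2
        rw [dt_subl, sub_eq_zero] at e
        exact e
  have hs : Function.Surjective Φ := by
    intro φ
    obtain ⟨v, hv⟩ := h2 n E0 I B s sp AX AY hJG (fun i => (φ i).1) (fun i => (φ i).2)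
    refine ⟨v, ?_⟩
    funext i
    rw [hΦ]
    refine Prod.ext ?_ ?_
    · exact LinearMap.ext fun z => ((hv i).1 z).symm
    · exact LinearMap.ext fun z => ((hv i).2 z).symm
  have hcard := card_V (Vn B s univ) Φ hkk hs
  -- sums and cardinalities of the factors
  have hP : ∀ i, ∑ p : P i, m2 (sp i) t (rr B s i) p =
      (Fintype.card (P i) : ℝ) * hk (sp i) (t + 1) (rr B s i) ∧
      (Fintype.card (P i) : ℝ) ≤ 16 ^ rr B s i := by
    intro i
    have key : ∀ (q : Prop) (_ : sp i = q), (q = True ∨ q = False) → ∑ p : P i, m2 (sp i) t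
        (rr B s i) p = (Fintype.card (P i) : ℝ) * hk (sp i) (t + 1) (rr B s i) ∧
        (Fintype.card (P i) : ℝ) ≤ 16 ^ rr B s i := by
      intro q hq hq'
      have hcP : (Fintype.card (P i) : ℝ) =
          (Fintype.card (Module.Dual (ZMod 2) (KX (B i) s (sp i) (AX i))) : ℝ) *
          Fintype.card (Module.Dual (ZMod 2) (KY (B i) s (sp i) (AY i))) := by
        rw [Fintype.card_prod]
        push_cast
        rfl
      rcases hq' with rfl | rfl
      · have hspi : sp i := by rw [hq]; trivial
        obtain ⟨-, r1, r2⟩ := h6 (E0 i) I (B i) (AX i) (AY i) s (halt i) (hspl i hspi)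
        rw [heven i] at r1 r2
        have r1' : finrank (ZMod 2) (KX (B i) s (sp i) (AX i)) = rr B s i := by
          rw [hq]
          omega
        have r2' : finrank (ZMod 2) (KY (B i) s (sp i) (AY i)) = rr B s i := by
          rw [hq]
          omega
        have c1 := card_dual2 _ r1'
        have c2 := card_dual2 _ r2'
        have hc4 : (Fintype.card (P i) : ℝ) = 4 ^ rr B s i := by
          rw [hcP, c1, c2, ← mul_pow]
          norm_num
        constructor
        · have a := avg1 h5 (R := KX (B i) s (sp i) (AX i)) (R' := KY (B i) s (sp i) (AY i))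
            (rr B s i) t r1' r2'
          rw [hc4]
          have e : ∀ t r, hk (sp i) t r = hk True t r := fun t r => by rw [hq]
          rw [e, ← a]
          exact sum_congr rfl fun p _ => m2_congr hq _ _ _
        · rw [hc4]
          exact pow_le_pow_left₀ (by norm_num) (by norm_num) _
      · have hx : KX (B i) s (sp i) (AX i) = Rd (B i) s := by rw [hq]; exact KX_false
        have hy : KY (B i) s (sp i) (AY i) = Rd (B i) s := by rw [hq]; exact KY_false
        have r1' : finrank (ZMod 2) (KX (B i) s (sp i) (AX i)) = 2 * rr B s i := by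
          rw [hx]
          exact hfr i
        have r2' : finrank (ZMod 2) (KY (B i) s (sp i) (AY i)) = 2 * rr B s i := by
          rw [hy]
          exact hfr i
        have c1 := card_dual2 _ r1'
        have c2 := card_dual2 _ r2'
        have hc4 : (Fintype.card (P i) : ℝ) = 16 ^ rr B s i := by
          rw [hcP, c1, c2, pow_mul, ← mul_pow]
          norm_num
        constructor
        · have a := avg0 h4 (R := KX (B i) s (sp i) (AX i)) (R' := KY (B i) s (sp i) (AY i))
            (hx.trans hy.symm) (rr B s i) t r1'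
          rw [hc4]
          have e : ∀ t r, hk (sp i) t r = hk False t r := fun t r => by rw [hq]
          rw [e, ← a]
          exact sum_congr rfl fun p _ => m2_congr hq _ _ _
        · exact hc4.le
    exact key (sp i) rfl (Classical.propComplete (sp i))
  have hcI : (Fintype.card (I → ZMod 2) : ℝ) = 2 ^ Fintype.card I := by
    rw [Fintype.card_fun, ZMod.card]
    push_cast
    rfl
  rw [hcI] at hcard
  have hprod : ∏ i, (Fintype.card (P i) : ℝ) ≤ 16 ^ (∑ i, rr B s i) := by
    rw [← prod_pow_eq_pow_sum]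
    exact prod_le_prod (fun i _ => Nat.cast_nonneg _) fun i _ => (hP i).2
  -- the sums over the cosets
  have hκ : 0 ≤ η * (Fintype.card (Vn B s univ) : ℝ) := mul_nonneg hη (Nat.cast_nonneg _)
  have hb : ∀ (a : I → ZMod 2) (W : Finset (Fin n)), W.Nonempty →
      (∀ i ∈ W, (Φ a i).1 = 0 ∧ (Φ a i).2 = 0) →
      |∑ h : Vn B s univ, ∏ i ∈ W, sgn (qq (B i) s (a + h))| ≤
        η * (Fintype.card (Vn B s univ) : ℝ) := by
    intro a W hW hz
    have ha : a ∈ Vn B s W := by
      intro i hi z hz'
      obtain ⟨e1, e2⟩ := hz i hi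
      have e1' : ∀ z ∈ KX (B i) s (sp i) (AX i), dt a z.2.1 = 0 := fun z hz =>
        LinearMap.congr_fun e1 ⟨z, hz⟩
      have e2' : ∀ z ∈ KY (B i) s (sp i) (AY i), dt a z.2.2 = 0 := fun z hz =>
        LinearMap.congr_fun e2 ⟨z, hz⟩
      exact ⟨(hvan i a).1.1 e1' z hz', (hvan i a).2.1 e2' z hz'⟩
    have e := h3 n E0 I B s sp AX AY W a halt hspl hW ha
    refine abs_le_of_sq_le_sq ?_ hκ
    refine e.trans ?_
    have e2 := hNW W hW
    rw [hcard] at e2
    have hpos : (0 : ℝ) < 16 ^ (∑ i, rr B s i) := by positivity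
    have e3 : (NW2 B s sp AX AY W : ℝ) ≤ η ^ 2 * Fintype.card (Vn B s univ) := by
      refine le_of_mul_le_mul_right ?_ hpos
      calc (NW2 B s sp AX AY W : ℝ) * 16 ^ (∑ i, rr B s i) ≤
            η ^ 2 * ((∏ i, (Fintype.card (P i) : ℝ)) * Fintype.card (Vn B s univ)) := e2
        _ ≤ η ^ 2 * (16 ^ (∑ i, rr B s i) * Fintype.card (Vn B s univ)) :=
            mul_le_mul_of_nonneg_left (mul_le_mul_of_nonneg_right hprod (Nat.cast_nonneg _))
              (sq_nonneg η)
        _ = η ^ 2 * Fintype.card (Vn B s univ) * 16 ^ (∑ i, rr B s i) := by ring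
    calc (Fintype.card (Vn B s univ) : ℝ) * NW2 B s sp AX AY W ≤
          (Fintype.card (Vn B s univ) : ℝ) * (η ^ 2 * Fintype.card (Vn B s univ)) :=
          mul_le_mul_of_nonneg_left e3 (Nat.cast_nonneg _)
      _ = (η * Fintype.card (Vn B s univ)) ^ 2 := by ring
  -- the transitions
  have hT : ∀ i v, ((Φ v i).1 = 0 ∧ (Φ v i).2 = 0 →
      hk (sp i) t (rr B (s + vv v) i) = m2 (sp i) t (rr B s i) (Φ v i) +
        sgn (qq (B i) s v) * ((hk (sp i) t (rr B s i) - hk (sp i) t (rr B s i + 1)) / 2)) ∧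
      (¬ ((Φ v i).1 = 0 ∧ (Φ v i).2 = 0) →
        hk (sp i) t (rr B (s + vv v) i) = m2 (sp i) t (rr B s i) (Φ v i)) := by
    intro i v
    obtain ⟨a1, a2, a3⟩ := h1 (E0 i) I (B i) s v (halt i)
    have hX0 : (Φ v i).1 = 0 ↔ ∀ z ∈ KX (B i) s (sp i) (AX i), dt v z.2.1 = 0 := by
      constructor
      · intro h z hz
        exact LinearMap.congr_fun h ⟨z, hz⟩
      · intro h
        exact LinearMap.ext fun z => h z.1 z.2
    have hY0 : (Φ v i).2 = 0 ↔ ∀ z ∈ KY (B i) s (sp i) (AY i), dt v z.2.2 = 0 := by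
      constructor
      · intro h z hz
        exact LinearMap.congr_fun h ⟨z, hz⟩
      · intro h
        exact LinearMap.ext fun z => h z.1 z.2
    have hX : (Φ v i).1 = 0 ↔ ∀ z ∈ Rd (B i) s, dt v z.2.1 = 0 := hX0.trans (hvan i v).1
    have hY : (Φ v i).2 = 0 ↔ ∀ z ∈ Rd (B i) s, dt v z.2.2 = 0 := hY0.trans (hvan i v).2
    have hdef : rr B (s + vv v) i = dR (B i) (s + vv v) univ / 2 := rfl
    refine ⟨fun hz => ?_, fun hz => ?_⟩
    · have e := a1 (fun z hz' => ⟨hX.1 hz.1 z hz', hY.1 hz.2 z hz'⟩)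
      unfold m2
      rw [if_pos hz, hdef, e, heven i]
      unfold sgn
      split_ifs with hq
      · have : (2 * rr B s i + 0) / 2 = rr B s i := by omega
        rw [this]
        ring
      · have : (2 * rr B s i + 2) / 2 = rr B s i + 1 := by omega
        rw [this]
        ring
    · unfold m2
      rw [if_neg hz]
      have hne : ∃ z ∈ Rd (B i) s, dt v z.2.1 ≠ 0 ∨ dt v z.2.2 ≠ 0 := by
        by_contra hcon
        push Not at hcon
        exact hz ⟨hX.2 fun z hz' => (hcon z hz').1, hY.2 fun z hz' => (hcon z hz').2⟩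
      split_ifs with hd
      · have e := a2 hne (by
          rcases hd with hd | hd | hd
          · exact Or.inl (hX.1 hd)
          · exact Or.inr (Or.inl (hY.1 hd))
          · refine Or.inr (Or.inr ?_)
            intro z hz'
            have hx : z ∈ KX (B i) s (sp i) (AX i) := ⟨hz', fun h => absurd h hd.1⟩
            have hy : z ∈ KY (B i) s (sp i) (AY i) := ⟨hz', fun h => absurd h hd.1⟩
            exact hd.2 z hx hy)
        rw [hdef, e]
        rfl
      · push Not at hd
        obtain ⟨d1, d2, d3⟩ := hd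
        have e := a3 (by
          by_contra hcon
          push Not at hcon
          exact d1 (hX.2 hcon)) (by
          by_contra hcon
          push Not at hcon
          exact d2 (hY.2 hcon)) (by
          by_cases hspi : sp i
          · have hx : ∃ z ∈ KX (B i) s (sp i) (AX i), dt v z.2.1 ≠ 0 := by
              by_contra hcon
              push Not at hcon
              exact d1 (hX0.2 hcon)
            obtain ⟨z, hz1, hz2⟩ := hx
            have hz0 : z.2.2 = 0 := (hz1.2 hspi).2
            refine ⟨z, hz1.1, ?_⟩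
            rw [hz0]
            have dt0 : dt v (0 : I → ZMod 2) = 0 := by
              unfold dt
              exact sum_eq_zero fun k _ => by rw [Pi.zero_apply, mul_zero]
            rw [dt0]
            exact hz2
          · obtain ⟨z, hz1, hz2, hz3⟩ := d3 hspi
            exact ⟨z, hz1.1, hz3⟩)
        have : rr B (s + vv v) i = rr B s i - 1 := by
          rw [hdef]
          have h5 := heven i
          omega
        rw [this]
  have hstep := step (Vn B s univ) Φ hkk hs (fun i v => hk (sp i) t (rr B (s + vv v) i))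
    (fun i p => m2 (sp i) t (rr B s i) p)
    (fun i => (hk (sp i) t (rr B s i) - hk (sp i) t (rr B s i + 1)) / 2)
    (fun i p => p.1 = 0 ∧ p.2 = 0) (fun i v => sgn (qq (B i) s v))
    (η * (Fintype.card (Vn B s univ) : ℝ)) hκ (fun i p => m2_abs h7 _ _ _ _)
    (fun i => by
      rw [abs_le]
      have k1 := (hk_bd h7 (sp i) t (rr B s i)).1
      have k2 := (hk_bd h7 (sp i) t (rr B s i + 1)).1
      have k3 := (hk_bd h7 (sp i) t (rr B s i)).2
      have k4 := (hk_bd h7 (sp i) t (rr B s i + 1)).2
      constructor <;> linarith) (fun i v => (hT i v).1) (fun i v => (hT i v).2) hb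
  rw [prod_congr rfl fun i _ => (hP i).1, prod_mul_distrib] at hstep
  have e1 : (Fintype.card (Vn B s univ) : ℝ) *
      ((∏ i, (Fintype.card (P i) : ℝ)) * ∏ i, hk (sp i) (t + 1) (rr B s i)) =
      2 ^ Fintype.card I * ∏ i, hk (sp i) (t + 1) (rr B s i) := by
    rw [hcard]
    ring
  have e2 : (∏ i, (Fintype.card (P i) : ℝ)) *
      (2 ^ n * (η * (Fintype.card (Vn B s univ) : ℝ))) = 2 ^ n * η * 2 ^ Fintype.card I := by
    rw [hcard]
    ring
  rw [e1, e2] at hstep
  exact hstep

end Pool.Agent.H328.JX
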